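import Pool.Agent.Lib_helper47.Flip.Assembly
import Pool.Agent.Lib_helper97.Flip.Assemble

/-!
The level `s(5)` of `(RP^9, i)` is at most `7`, while the quadratic level `r(5)` is equal to `8`.

* `s(5) ≤ 7`: an explicit continuous map `ℂ^5 → ℝ^7` which is even, changes its sign under
  `z ↦ i z` and vanishes at the origin only (`exists_flip57`);
* `r(5) ≥ 8`: there are no seven complex quadratic forms on `ℂ^5` whose imaginary parts have no
  common zero besides `0` (`not_zeroFree`);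
* `r(5) ≤ 8`: the eight forms `z₀ z₁`, `z₀² - z₁²`, `i (z₀² + z₁²)`, `z₂ z₃`, `z₂² - z₃²`,
  `i (z₂² + z₃²)`, `z₄²`, `i z₄²`.
-/

set_option autoImplicit false

namespace Pool.Agent.Results.MP_c0c498_gt.LevelOfRP9

/-- `z` and `w` in `ℂ^m ∖ 0` define the same point of `RP^(2m-1)`: `w = c z` for a real `c ≠ 0`. -/
def realLines (m : ℕ) : Setoid {z : Fin m → ℂ // z ≠ 0} where
  r z w := ∃ c : ℝ, c ≠ 0 ∧ w.1 = c • z.1
  iseqv :=
    { refl := fun z => ⟨1, one_ne_zero, (one_smul ℝ z.1).symm⟩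
      symm := by
        rintro z w ⟨c, hc, h⟩
        exact ⟨c⁻¹, inv_ne_zero hc, by rw [h, smul_smul, inv_mul_cancel₀ hc, one_smul]⟩
      trans := by
        rintro z w v ⟨c, hc, h⟩ ⟨d, hd, h'⟩
        exact ⟨d * c, mul_ne_zero hd hc, by rw [h', h, smul_smul]⟩ }

/-- The real projective space `RP^(2m-1) = (ℂ^m ∖ 0) / ℝ^×` with the quotient topology. -/
abbrev RP (m : ℕ) : Type := Quotient (realLines m)

/-- The involution `[z] ↦ [i z]` of `RP^(2m-1)`. -/
def mulI (m : ℕ) : RP m → RP m :=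
  Quotient.map (fun z => ⟨Complex.I • z.1, smul_ne_zero Complex.I_ne_zero z.2⟩) (by
    rintro z w ⟨c, hc, h⟩
    exact ⟨c, hc, by
      show Complex.I • w.1 = c • (Complex.I • z.1)
      rw [h, smul_comm]⟩)

/-- There is a continuous map `f : RP^(2m-1) → S^(n-1)` with `f([i z]) = - f([z])`. -/
def HasEquivariantMap (m n : ℕ) : Prop :=
  ∃ f : RP m → Metric.sphere (0 : EuclideanSpace ℝ (Fin n)) 1,
    Continuous f ∧ ∀ p : RP m, f (mulI m p) = - f p

/-- There is a quadratic map `φ : ℂ^m → ℂ^r`, an `r`-tuple of complex quadratic forms, such that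
`φ(z)` is not a real vector if `z ≠ 0`. -/
def HasQuadraticMap (m r : ℕ) : Prop :=
  ∃ φ : Fin r → QuadraticForm ℂ (Fin m → ℂ), ∀ z : Fin m → ℂ, z ≠ 0 → ∃ j, (φ j z).im ≠ 0

/-- a continuous even flipping map without zeros besides the origin gives an equivariant map -/
theorem hasEquivariantMap_of {m n : ℕ} (f : (Fin m → ℂ) → (Fin n → ℝ)) (hf : Continuous f)
    (hneg : ∀ z, f (-z) = f z) (hI : ∀ z, f (Complex.I • z) = - f z)
    (hz : ∀ z, z ≠ 0 → f z ≠ 0) : HasEquivariantMap m n := by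
  set g : {z : Fin m → ℂ // z ≠ 0} → EuclideanSpace ℝ (Fin n) :=
    fun z => WithLp.toLp 2 (f (‖z.1‖⁻¹ • z.1)) with hg
  have hg0 : ∀ z, g z ≠ 0 := by
    intro z h
    have h1 : f (‖z.1‖⁻¹ • z.1) ≠ 0 := hz _ (smul_ne_zero (inv_ne_zero (norm_ne_zero_iff.2 z.2)) z.2)
    apply h1
    funext j
    exact congrArg (fun v : EuclideanSpace ℝ (Fin n) => v j) h
  have hgc : Continuous g := by
    have h1 : Continuous fun z : {z : Fin m → ℂ // z ≠ 0} => ‖z.1‖⁻¹ • z.1 := by
      have h00 : Continuous fun z : {z : Fin m → ℂ // z ≠ 0} => z.1 := continuous_subtype_val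
      have h0 : Continuous fun z : {z : Fin m → ℂ // z ≠ 0} => ‖z.1‖ := h00.norm
      exact (h0.inv₀ fun z => norm_ne_zero_iff.2 z.2).smul h00
    exact (PiLp.continuous_toLp 2 (fun _ : Fin n => ℝ)).comp (hf.comp h1)
  set F : {z : Fin m → ℂ // z ≠ 0} → Metric.sphere (0 : EuclideanSpace ℝ (Fin n)) 1 :=
    fun z => ⟨‖g z‖⁻¹ • g z, by
      rw [mem_sphere_zero_iff_norm, norm_smul, norm_inv, norm_norm,
        inv_mul_cancel₀ (norm_ne_zero_iff.2 (hg0 z))]⟩ with hF
  have hFc : Continuous F := by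
    refine Continuous.subtype_mk ?_ _
    exact Continuous.smul (hgc.norm.inv₀ fun z => norm_ne_zero_iff.2 (hg0 z)) hgc
  have hgr : ∀ z w : {z : Fin m → ℂ // z ≠ 0}, (realLines m).r z w → g z = g w := by
    rintro z w ⟨c, hc, h⟩
    have hzn : ‖z.1‖ ≠ 0 := norm_ne_zero_iff.2 z.2
    have h1 : ‖w.1‖⁻¹ • w.1 = (‖c‖⁻¹ * c) • (‖z.1‖⁻¹ • z.1) := by
      rw [h, norm_smul, smul_smul, smul_smul, mul_inv]
      congr 1
      ring
    have h2 : ‖c‖⁻¹ * c = 1 ∨ ‖c‖⁻¹ * c = -1 := by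
      rcases lt_or_gt_of_ne hc with h | h
      · right
        rw [Real.norm_eq_abs, abs_of_neg h, inv_neg, neg_mul, inv_mul_cancel₀ hc]
      · left
        rw [Real.norm_eq_abs, abs_of_pos h, inv_mul_cancel₀ hc]
    show WithLp.toLp 2 (f (‖z.1‖⁻¹ • z.1)) = WithLp.toLp 2 (f (‖w.1‖⁻¹ • w.1))
    rw [h1]
    rcases h2 with h2 | h2
    · rw [h2, one_smul]
    · rw [h2, neg_one_smul, hneg]
  have hgI : ∀ z : {z : Fin m → ℂ // z ≠ 0},
      g ⟨Complex.I • z.1, smul_ne_zero Complex.I_ne_zero z.2⟩ = - g z := by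
    intro z
    show WithLp.toLp 2 (f (‖Complex.I • z.1‖⁻¹ • (Complex.I • z.1))) = - WithLp.toLp 2 _
    rw [norm_smul, Complex.norm_I, one_mul, smul_comm, hI]
    rfl
  refine ⟨Quotient.lift F ?_, ?_, ?_⟩
  · intro z w h
    apply Subtype.ext
    show ‖g z‖⁻¹ • g z = ‖g w‖⁻¹ • g w
    rw [hgr z w h]
  · exact Continuous.quotient_lift hFc _
  · intro p
    induction p using Quotient.inductionOn with
    | _ z =>
      apply Subtype.ext
      show ‖g ⟨Complex.I • z.1, _⟩‖⁻¹ • g ⟨Complex.I • z.1, _⟩ = -(‖g z‖⁻¹ • g z)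
      rw [hgI, norm_neg, smul_neg]

/-- the three quadratic forms in two variables -/
theorem pair_zero (u v : ℂ) (h1 : (u * v).im = 0) (h2 : (u * u - v * v).im = 0)
    (h3 : (Complex.I * (u * u + v * v)).im = 0) : u = 0 ∧ v = 0 := by
  obtain ⟨a, b⟩ := u
  obtain ⟨c, d⟩ := v
  simp only [Complex.mul_im, Complex.sub_im, Complex.add_re, Complex.mul_re, Complex.I_re,
    Complex.I_im, Complex.add_im] at h1 h2 h3
  have e1 : (a * c - b * d) ^ 2 + (a ^ 2 - b ^ 2) ^ 2 + 4 * (a * b) ^ 2 = 0 := by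
    linear_combination (a * d + b * c) * h1 + (a ^ 2 - b ^ 2) * h3 + 2 * (a * b) * h2
  have q1 := sq_nonneg (a * c - b * d)
  have q2 := sq_nonneg (a * b)
  have q3 := sq_nonneg (a ^ 2 - b ^ 2)
  have e2 : a ^ 2 - b ^ 2 = 0 := by
    have : (a ^ 2 - b ^ 2) ^ 2 = 0 := by linarith
    exact (pow_eq_zero_iff two_ne_zero).1 this
  have e3 : a * b = 0 := by
    have : (a * b) ^ 2 = 0 := by linarith
    exact (pow_eq_zero_iff two_ne_zero).1 this
  have ha : a = 0 := by
    rcases mul_eq_zero.1 e3 with h | h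
    · exact h
    · rw [h] at e2
      have : a ^ 2 = 0 := by linarith
      exact (pow_eq_zero_iff two_ne_zero).1 this
  have hb : b = 0 := by
    rw [ha] at e2
    have : b ^ 2 = 0 := by linarith
    exact (pow_eq_zero_iff two_ne_zero).1 this
  subst ha
  subst hb
  have e4 : c ^ 2 - d ^ 2 = 0 := by linarith
  have e5 : c * d = 0 := by linarith
  have hc : c = 0 := by
    rcases mul_eq_zero.1 e5 with h | h
    · exact h
    · rw [h] at e4
      have : c ^ 2 = 0 := by linarith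
      exact (pow_eq_zero_iff two_ne_zero).1 this
  have hd : d = 0 := by
    rw [hc] at e4
    have : d ^ 2 = 0 := by linarith
    exact (pow_eq_zero_iff two_ne_zero).1 this
  subst hc
  subst hd
  exact ⟨rfl, rfl⟩

theorem single_zero (u : ℂ) (h1 : (u * u).im = 0) (h2 : (Complex.I * (u * u)).im = 0) : u = 0 := by
  have h3 : u * u = 0 := by
    apply Complex.ext
    · simpa [Complex.mul_im] using h2
    · simpa using h1
  exact mul_self_eq_zero.1 h3

/-- `r(5) ≤ 8` -/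
theorem hasQuadraticMap_eight : HasQuadraticMap 5 8 := by
  refine ⟨![QuadraticMap.proj 0 1, QuadraticMap.proj 0 0 - QuadraticMap.proj 1 1,
    Complex.I • (QuadraticMap.proj 0 0 + QuadraticMap.proj 1 1),
    QuadraticMap.proj 2 3, QuadraticMap.proj 2 2 - QuadraticMap.proj 3 3,
    Complex.I • (QuadraticMap.proj 2 2 + QuadraticMap.proj 3 3),
    QuadraticMap.proj 4 4, Complex.I • QuadraticMap.proj 4 4], ?_⟩
  intro z hz
  by_contra hcon
  push Not at hcon
  apply hz
  have h0 : (z 0 * z 1).im = 0 := hcon 0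
  have h1 : (z 0 * z 0 - z 1 * z 1).im = 0 := hcon 1
  have h2 : (Complex.I * (z 0 * z 0 + z 1 * z 1)).im = 0 := hcon 2
  have h3 : (z 2 * z 3).im = 0 := hcon 3
  have h4 : (z 2 * z 2 - z 3 * z 3).im = 0 := hcon 4
  have h5 : (Complex.I * (z 2 * z 2 + z 3 * z 3)).im = 0 := hcon 5
  have h6 : (z 4 * z 4).im = 0 := hcon 6
  have h7 : (Complex.I * (z 4 * z 4)).im = 0 := hcon 7
  obtain ⟨e0, e1⟩ := pair_zero _ _ h0 h1 h2
  obtain ⟨e2, e3⟩ := pair_zero _ _ h3 h4 h5
  have e4 := single_zero _ h6 h7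
  funext i
  fin_cases i
  · exact e0
  · exact e1
  · exact e2
  · exact e3
  · exact e4

/-- `r(5) ≥ 8` -/
theorem eight_le {r : ℕ} (h : HasQuadraticMap 5 r) : 8 ≤ r := by
  by_contra hr
  obtain ⟨φ, hφ⟩ := h
  obtain ⟨Φ, hΦ, hΦ'⟩ := Pool.Agent.Lib97.Flip.exists_sys r (by omega)
    (fun j => Complex.imLm.compQuadraticMap ((φ j).restrictScalars (S := ℝ))) (by
      intro j z
      show (φ j (Complex.I • z)).im = - (φ j z).im
      rw [QuadraticMap.map_smul, Complex.I_mul_I, neg_one_smul, Complex.neg_im]) (by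
      intro z hz
      exact hφ z hz)
  exact Pool.Agent.Flip.not_zeroFree hΦ hΦ'

/-- `s(5) ≤ 7 < 8 = r(5)`: the least `n` for which a continuous equivariant map `RP^9 → S^(n-1)`
exists is at most `7`, and the least `r` for which some quadratic map `φ : ℂ^5 → ℂ^r` has no real
value `φ(z)`, `z ≠ 0`, is `8`. -/
theorem result :
    (∃ s : ℕ, s ≤ 7 ∧ IsLeast {n : ℕ | HasEquivariantMap 5 n} s) ∧
      IsLeast {r : ℕ | HasQuadraticMap 5 r} 8 := by
  classical
  refine ⟨?_, hasQuadraticMap_eight, fun r hr => eight_le hr⟩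
  have h7 : HasEquivariantMap 5 7 := by
    obtain ⟨f, hf, hneg, hI, hz⟩ := Pool.Agent.Lib97.Flip.exists_flip57
    exact hasEquivariantMap_of f hf hneg hI hz
  exact ⟨sInf {n : ℕ | HasEquivariantMap 5 n}, Nat.sInf_le h7, Nat.sInf_mem ⟨7, h7⟩,
    fun n hn => Nat.sInf_le hn⟩

end Pool.Agent.Results.MP_c0c498_gt.LevelOfRP9
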